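import Mathlib

set_option autoImplicit false

namespace Pool.Agent.H.MP_ae9c87_an

open Filter Topology Real MeasureTheory

noncomputable def e (t : ℝ) : ℂ := Complex.exp (Complex.I * t)

theorem e_add (s t : ℝ) : e (s + t) = e s * e t := by
  rw [e, e, e, ← Complex.exp_add]; congr 1; push_cast; ring

theorem e_norm (t : ℝ) : ‖e t‖ = 1 := by rw [e, Complex.norm_exp_I_mul_ofReal]

theorem e_zero : e 0 = 1 := by simp [e]

theorem e_nat (c : ℕ) (t : ℝ) : e (c * t) = e t ^ c := by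
  rw [e, e, ← Complex.exp_nat_mul]; congr 1; push_cast; ring

@[fun_prop] theorem e_cont : Continuous e := by unfold e; fun_prop

theorem e_cos (t : ℝ) : ((cos t : ℝ) : ℂ) = (e t + e (-t)) / 2 := by
  rw [Complex.ofReal_cos, Complex.cos, e, e]; push_cast; ring_nf

theorem vdc {φ p q : ℝ → ℝ} {a b s : ℝ} (hab : a ≤ b) (hs : 0 < s)
    (h1 : ∀ x, HasDerivAt φ (p x) x) (h2 : ∀ x, HasDerivAt p (q x) x) (hq : Continuous q)
    (h3 : ∀ x ∈ Set.Icc a b, 7 * q x ≤ -s ^ 2) : ‖∫ x in a..b, e (φ x)‖ ≤ 33 / s := by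
  have cφ : Continuous φ := continuous_iff_continuousAt.2 fun x => (h1 x).continuousAt
  have cp : Continuous p := continuous_iff_continuousAt.2 fun x => (h2 x).continuousAt
  have d0 : ∀ x, 0 < p x ^ 2 + s ^ 2 := fun x => by positivity
  set r : ℝ → ℝ := fun x => p x / (p x ^ 2 + s ^ 2) with hr
  set r' : ℝ → ℝ := fun x => q x * (s ^ 2 - p x ^ 2) / (p x ^ 2 + s ^ 2) ^ 2 with hr'
  have dr : ∀ x, HasDerivAt r (r' x) x := fun x => by
    refine ((h2 x).div (((h2 x).pow 2).add_const (s ^ 2)) (d0 x).ne').congr_deriv ?_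
    simp only [hr', Pi.pow_apply]; congr 1; push_cast; ring
  have de : ∀ x, HasDerivAt (fun x => e (φ x)) (e (φ x) * (Complex.I * p x)) x := fun x =>
    ((h1 x).ofReal_comp.const_mul Complex.I).cexp
  have cr : Continuous r := continuous_iff_continuousAt.2 fun x => (dr x).continuousAt
  have cr' : Continuous r' := by
    refine Continuous.div (by fun_prop) (by fun_prop) fun x => (pow_pos (d0 x) 2).ne'
  set G' : ℝ → ℂ := fun x => e (φ x) * (p x * r x) - Complex.I * (e (φ x) * r' x) with hG'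
  have dG : ∀ x, HasDerivAt (fun x => -Complex.I * (e (φ x) * r x)) (G' x) x := fun x => by
    refine (((de x).mul (dr x).ofReal_comp).const_mul (-Complex.I)).congr_deriv ?_
    simp only [hG']
    linear_combination (-(e (φ x) * p x * r x)) * Complex.I_mul_I
  have dB : ∀ x, HasDerivAt (fun x => -8 / s * arctan (p x / s)) (-8 * q x / (p x ^ 2 + s ^ 2)) x :=
    fun x => by
    refine ((((h2 x).div_const s).arctan).const_mul (-8 / s)).congr_deriv ?_
    have := (d0 x).ne'
    field_simp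
    ring
  have cG' : Continuous G' := by simp only [hG']; fun_prop
  have i1 := intervalIntegral.integral_eq_sub_of_hasDerivAt (a := a) (b := b)
    (fun x _ => dG x) (cG'.intervalIntegrable _ _)
  have cB : Continuous fun x => -8 * q x / (p x ^ 2 + s ^ 2) :=
    Continuous.div (by fun_prop) (by fun_prop) fun x => (d0 x).ne'
  have i2 := intervalIntegral.integral_eq_sub_of_hasDerivAt (a := a) (b := b)
    (fun x _ => dB x) (cB.intervalIntegrable _ _)
  have i3 : ‖∫ x in a..b, (e (φ x) - G' x)‖ ≤ ∫ x in a..b, -8 * q x / (p x ^ 2 + s ^ 2) := by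
    refine intervalIntegral.norm_integral_le_of_norm_le hab (ae_of_all _ fun x hx => ?_)
      (cB.intervalIntegrable _ _)
    have h4 := h3 x ⟨hx.1.le, hx.2⟩
    have h5 := d0 x
    have : e (φ x) - G' x = e (φ x) * (((s ^ 2 / (p x ^ 2 + s ^ 2) : ℝ) : ℂ) + Complex.I * r' x) := by
      have : (p x : ℂ) * r x = 1 - ((s ^ 2 / (p x ^ 2 + s ^ 2) : ℝ) : ℂ) := by
        norm_cast; simp only [hr]; field_simp; ring
      simp only [hG', this]; ring
    rw [this, norm_mul, e_norm, one_mul]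
    refine (norm_add_le _ _).trans ?_
    rw [norm_mul, Complex.norm_I, one_mul, Complex.norm_real, Complex.norm_real,
      Real.norm_of_nonneg (by positivity), Real.norm_eq_abs]
    have h6 : |r' x| ≤ -q x / (p x ^ 2 + s ^ 2) := by
      simp only [hr']
      rw [abs_div, abs_mul, abs_of_nonpos (by nlinarith : q x ≤ 0), abs_of_pos (pow_pos h5 2),
        div_le_div_iff₀ (pow_pos h5 2) h5]
      have h7 : |s ^ 2 - p x ^ 2| ≤ p x ^ 2 + s ^ 2 := by
        rw [abs_le]; constructor <;> nlinarith [sq_nonneg (p x), sq_nonneg s]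
      have h8 : 0 ≤ -q x := by nlinarith
      have := mul_le_mul_of_nonneg_left h7 (mul_pos h5 h5).le
      nlinarith [mul_le_mul_of_nonneg_left h7 (mul_nonneg h8 h5.le)]
    have h9 : s ^ 2 / (p x ^ 2 + s ^ 2) ≤ -7 * q x / (p x ^ 2 + s ^ 2) :=
      div_le_div_of_nonneg_right (by linarith) h5.le
    have : -8 * q x / (p x ^ 2 + s ^ 2) = -7 * q x / (p x ^ 2 + s ^ 2) + -q x / (p x ^ 2 + s ^ 2) := by
      ring
    linarith
  have nG : ∀ x, ‖-Complex.I * (e (φ x) * r x)‖ ≤ 1 / (2 * s) := fun x => by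
    rw [norm_mul, norm_neg, Complex.norm_I, one_mul, norm_mul, e_norm, one_mul, Complex.norm_real,
      Real.norm_eq_abs]
    simp only [hr]
    rw [abs_div, abs_of_pos (d0 x), div_le_div_iff₀ (d0 x) (by positivity)]
    nlinarith [sq_nonneg (|p x| - s), sq_abs (p x)]
  rw [intervalIntegral.integral_sub ((show Continuous fun x => e (φ x) by fun_prop).intervalIntegrable _ _)
    (cG'.intervalIntegrable _ _), i1, i2] at i3
  have t1 := norm_sub_le (-Complex.I * (e (φ b) * r b)) (-Complex.I * (e (φ a) * r a))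
  have t2 := norm_sub_norm_le (∫ x in a..b, e (φ x))
    (-Complex.I * (e (φ b) * r b) - -Complex.I * (e (φ a) * r a))
  have a1 := arctan_lt_pi_div_two (p a / s)
  have a2 := neg_pi_div_two_lt_arctan (p b / s)
  have a3 : -8 / s * arctan (p b / s) - -8 / s * arctan (p a / s) ≤ 32 / s := by
    rw [show -8 / s * arctan (p b / s) - -8 / s * arctan (p a / s) =
      8 * (arctan (p a / s) - arctan (p b / s)) / s by ring]
    exact div_le_div_of_nonneg_right (by linarith [pi_le_four]) hs.le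
  have a4 : 33 / s = 32 / s + (1 / (2 * s) + 1 / (2 * s)) := by field_simp; ring
  linarith [nG a, nG b]

theorem rl (g : ℝ → ℂ) : Tendsto (fun w : ℝ => ∫ x in (1 : ℝ)..2, e (w * x) * g x) (cocompact ℝ) (𝓝 0) := by
  have h := (Real.tendsto_integral_exp_smul_cocompact ((Set.Ioc (1 : ℝ) 2).indicator g)).comp
    (Homeomorph.mulRight₀ (-(2 * π)⁻¹) (by simp [pi_pos.ne'])).toCocompactMap.cocompact_tendsto'
  refine h.congr fun w => ?_
  rw [intervalIntegral.integral_of_le one_le_two, ← integral_indicator measurableSet_Ioc]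
  refine integral_congr_ae (ae_of_all _ fun x => ?_)
  by_cases hx : x ∈ Set.Ioc (1 : ℝ) 2
  · simp only [Set.indicator_of_mem hx, Circle.smul_def, Real.fourierChar_apply, smul_eq_mul, e]
    congr 2
    have : (π : ℂ) ≠ 0 := by simp [pi_pos.ne']
    simp
    field_simp
  · simp [Set.indicator_of_notMem hx]

noncomputable def v (x : ℝ) : ℂ := e (π + 2 * arctan x)

@[fun_prop] theorem v_cont : Continuous v := by unfold v; fun_prop

noncomputable def P (N : ℕ → ℝ) (k : ℕ) (x : ℝ) : ℝ := ∏ i ∈ Finset.range k, (1 + cos (N i * x))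

@[fun_prop] theorem P_cont (N : ℕ → ℝ) (k : ℕ) : Continuous (P N k) := by unfold P; fun_prop

theorem P_nonneg (N : ℕ → ℝ) (k : ℕ) (x : ℝ) : 0 ≤ P N k x :=
  Finset.prod_nonneg fun i _ => by linarith [neg_one_le_cos (N i * x)]

noncomputable def W (N : ℕ → ℝ) (k n : ℕ) (m : ℝ) : ℂ :=
  ∫ x in (1 : ℝ)..2, e (m * x) * (v x ^ n * P N k x)

theorem W_succ (N : ℕ → ℝ) (k n : ℕ) (m : ℝ) :
    W N (k + 1) n m = W N k n m + (W N k n (m + N k) + W N k n (m - N k)) / 2 := by
  unfold W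
  have c : ∀ m : ℝ, IntervalIntegrable (fun x => e (m * x) * (v x ^ n * P N k x)) volume 1 2 :=
    fun m => Continuous.intervalIntegrable (by fun_prop) _ _
  rw [← intervalIntegral.integral_add (c _) (c _), ← intervalIntegral.integral_div,
    ← intervalIntegral.integral_add (c _) (((c _).add (c _)).div_const _)]
  congr 1; funext x
  rw [P, Finset.prod_range_succ, ← P, add_mul m, sub_mul m, sub_eq_add_neg, e_add, e_add,
    Complex.ofReal_mul, Complex.ofReal_add, e_cos]
  push_cast; ring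

theorem W_bd (N : ℕ → ℝ) {n : ℕ} {s : ℝ} (hs : 0 < s) (h : s ^ 2 ≤ n) :
    ∀ (k : ℕ) (m : ℝ), ‖W N k n m‖ ≤ 2 ^ k * (33 / s)
  | 0, m => by
    have d0 : ∀ x : ℝ, 1 + x ^ 2 ≠ 0 := fun x => by positivity
    have := vdc (φ := fun x => m * x + n * (π + 2 * arctan x))
      (p := fun x => m + n * (2 * (1 / (1 + x ^ 2))))
      (q := fun x => n * (2 * (-(2 * x) / (1 + x ^ 2) ^ 2))) one_le_two hs
      (fun x => ((hasDerivAt_id x).const_mul m).add
        ((((hasDerivAt_arctan x).const_mul 2).const_add π).const_mul (n : ℝ)) |>.congr_deriv (by simp))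
      (fun x => by
        refine ((((((hasDerivAt_id x).pow 2).const_add 1).inv (d0 x)).const_mul 2).const_mul
          (n : ℝ) |>.const_add m |>.congr_deriv (by simp)).congr_of_eventuallyEq ?_
        exact Eventually.of_forall fun y => by simp)
      (by refine continuous_const.mul (continuous_const.mul (Continuous.div (by fun_prop)
            (by fun_prop) fun x => pow_ne_zero _ (d0 x))))
      (fun x hx => by
        have h1 : 2 * (-(2 * x) / (1 + x ^ 2) ^ 2) ≤ -(1 / 7) := by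
          rw [← mul_div_assoc, div_le_iff₀ (by positivity)]
          have : x ^ 2 ≤ 4 := by nlinarith [hx.1, hx.2]
          nlinarith [hx.1, sq_nonneg x]
        have := mul_le_mul_of_nonneg_left h1 (Nat.cast_nonneg (α := ℝ) n)
        linarith)
    simpa [W, P, e_add, e_nat, v] using this
  | k + 1, m => by
    rw [W_succ]
    have := norm_add_le (W N k n m) ((W N k n (m + N k) + W N k n (m - N k)) / 2)
    have h2 := norm_add_le (W N k n (m + N k)) (W N k n (m - N k))
    rw [norm_div, Complex.norm_two] at this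
    have := W_bd N hs h k m
    have := W_bd N hs h k (m + N k)
    have := W_bd N hs h k (m - N k)
    rw [pow_succ]; linarith

theorem W_rl (N : ℕ → ℝ) (k n : ℕ) {ε : ℝ} (hε : 0 < ε) (c : ℝ) :
    ∀ᶠ a in atTop, ‖W N k n (c + a)‖ ≤ ε ∧ ‖W N k n (c - a)‖ ≤ ε ∧ ‖W N k n (a + a)‖ ≤ ε := by
  have h := (rl fun x => v x ^ n * P N k x).norm.eventually 
    (ge_mem_nhds (show ‖(0 : ℂ)‖ < ε by simpa))
  rw [cocompact_eq_atBot_atTop, eventually_sup] at h
  exact ((tendsto_atTop_add_const_left _ c tendsto_id).eventually h.2).and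
    (((tendsto_atBot_add_const_left _ c tendsto_neg_atTop_atBot).eventually h.1).and
      ((Tendsto.atTop_add_atTop tendsto_id tendsto_id).eventually h.2))

theorem rec_choice {A : Type} [Inhabited A] (R : ℕ → (ℕ → A) → A → Prop)
    (hl : ∀ k f g a, (∀ i < k, f i = g i) → R k f a → R k g a) (h : ∀ k f, ∃ a, R k f a) :
    ∃ f : ℕ → A, ∀ k, R k f (f k) := by
  choose c hc using h
  obtain ⟨B, B1⟩ : ∃ B : ℕ → ℕ → A, ∀ k, B (k + 1) = Function.update (B k) k (c k (B k)) :=
    ⟨fun n => Nat.rec (fun _ => default) (fun k b => Function.update b k (c k b)) n, fun _ => rfl⟩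
  have hB : ∀ k i, i < k → B k i = c i (B i) := fun k => by
    induction k with
    | zero => simp
    | succ k ih =>
      intro i hi
      rcases Nat.lt_succ_iff_lt_or_eq.1 hi with h | rfl
      · rw [B1, Function.update_of_ne h.ne, ih i h]
      · rw [B1, Function.update_self]
  exact ⟨fun i => c i (B i), fun k => hl k (B k) _ _ (hB k) (hc k _)⟩

theorem tele {a : ℕ → ℂ} {ε : ℝ} (hε : 0 ≤ ε) {k : ℕ}
    (h : ∀ j, k ≤ j → ‖a (j + 1) - a j‖ ≤ ε / 2 ^ j) (j : ℕ) (hj : k ≤ j) :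
    ‖a j - a k‖ ≤ 2 * (ε / 2 ^ k) := by
  have : ‖a j - a k‖ ≤ 2 * (ε / 2 ^ k) - 2 * (ε / 2 ^ j) := by
    induction j, hj using Nat.le_induction with
    | base => simp
    | succ j hj ih =>
      have h1 := norm_add_le (a (j + 1) - a j) (a j - a k)
      rw [sub_add_sub_cancel] at h1
      have h2 : 2 * (ε / 2 ^ (j + 1)) = ε / 2 ^ j := by rw [pow_succ]; field_simp
      linarith [h j hj]
  have h3 : 0 ≤ ε / 2 ^ j := by positivity
  linarith

theorem riesz : ∃ N : ℕ → ℝ, (∀ k : ℕ, (k : ℝ) ≤ N k) ∧ (∀ j, ‖W N j 0 0‖ ≤ 2) ∧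
    (∀ k j, k < j → 1 / 8 ≤ ‖W N j 0 (N k)‖) ∧
    ∀ n k j : ℕ, 16 ^ k ≤ n → n < 16 ^ (k + 1) → k < j → ‖W N j n 0‖ ≤ 70 / 2 ^ k := by
  obtain ⟨N, hN⟩ := rec_choice (fun k N a => (k : ℝ) ≤ a ∧
      (∀ n ∈ Finset.range (16 ^ k), ‖W N k n (0 + a)‖ ≤ 1 / 16 / 2 ^ k ∧
        ‖W N k n (0 - a)‖ ≤ 1 / 16 / 2 ^ k ∧ ‖W N k n (a + a)‖ ≤ 1 / 16 / 2 ^ k) ∧
      ∀ i ∈ Finset.range k, ‖W N k 0 (N i + a)‖ ≤ 1 / 16 / 2 ^ k ∧
        ‖W N k 0 (N i - a)‖ ≤ 1 / 16 / 2 ^ k)
    (fun k f g a h ⟨h1, h2, h3⟩ => by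
      have hP : P f k = P g k := funext fun x =>
        Finset.prod_congr rfl fun i hi => by rw [h i (Finset.mem_range.1 hi)]
      have hW : W f k = W g k := by funext n m; simp only [W, hP]
      rw [← hW]
      exact ⟨h1, h2, fun i hi => by rw [← h i (Finset.mem_range.1 hi)]; exact h3 i hi⟩)
    (fun k f => ((eventually_ge_atTop (k : ℝ)).and (((Finset.eventually_all _).2 fun n _ =>
      W_rl f k n (by positivity) 0).and ((Finset.eventually_all _).2 fun i _ =>
      (W_rl f k 0 (by positivity) (f i)).mono fun _ h => ⟨h.1, h.2.1⟩))).exists)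
  have st : ∀ j n m, ‖W N j n (m + N j)‖ ≤ 1 / 16 / 2 ^ j → ‖W N j n (m - N j)‖ ≤ 1 / 16 / 2 ^ j →
      ‖W N (j + 1) n m - W N j n m‖ ≤ 1 / 16 / 2 ^ j := fun j n m h1 h2 => by
    rw [W_succ, add_sub_cancel_left, norm_div, Complex.norm_two]
    linarith [norm_add_le (W N j n (m + N j)) (W N j n (m - N j))]
  have z : ∀ j, 0 ∈ Finset.range (16 ^ j) := fun j => Finset.mem_range.2 (by positivity)
  have m1 : ∀ j, ‖W N j 0 0 - 1‖ ≤ 1 / 8 := fun j => by
    have := tele (a := fun j => W N j 0 0) (ε := 1 / 16) (by norm_num) (k := 0)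
      (fun j _ => st j 0 0 ((hN j).2.1 0 (z j)).1 ((hN j).2.1 0 (z j)).2.1) j j.zero_le
    have e0 : W N 0 0 0 = 1 := by simp [W, P, e_zero]; norm_num
    rw [e0] at this
    linarith
  refine ⟨N, fun k => (hN k).1, fun j => ?_, fun k j h => ?_, fun n k j h1 h2 h3 => ?_⟩
  · have := norm_sub_norm_le (W N j 0 0) 1
    rw [norm_one] at this
    linarith [m1 j]
  · have h1 := tele (a := fun j => W N j 0 (N k)) (ε := 1 / 16) (by norm_num) (k := k + 1)
      (fun j hj => st j 0 _ ((hN j).2.2 k (Finset.mem_range.2 hj)).1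
        ((hN j).2.2 k (Finset.mem_range.2 hj)).2) j h
    obtain ⟨h2, -, h3⟩ := (hN k).2.1 0 (z k)
    rw [zero_add] at h2
    have h4 : (1 : ℝ) / 16 / 2 ^ k ≤ 1 / 16 := div_le_self (by norm_num) (one_le_pow₀ one_le_two)
    have h5 : 2 * ((1 : ℝ) / 16 / 2 ^ (k + 1)) = 1 / 16 / 2 ^ k := by rw [pow_succ]; field_simp
    have h6 : (1 : ℂ) = 2 * W N j 0 (N k) - 2 * (W N j 0 (N k) - W N (k + 1) 0 (N k)) -
        2 * W N k 0 (N k) - W N k 0 (N k + N k) - (W N k 0 0 - 1) := by
      rw [W_succ, sub_self]; ring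
    have h7 := congrArg norm h6
    have h8 := m1 k
    generalize W N j 0 (N k) - W N (k + 1) 0 (N k) = b at *
    generalize W N j 0 (N k) = a at *
    generalize W N k 0 (N k) = c at *
    generalize W N k 0 (N k + N k) = d at *
    generalize W N k 0 0 - 1 = f at *
    have t1 := norm_sub_le (2 * a - 2 * b - 2 * c - d) f
    have t2 := norm_sub_le (2 * a - 2 * b - 2 * c) d
    have t3 := norm_sub_le (2 * a - 2 * b) (2 * c)
    have t4 := norm_sub_le (2 * a) (2 * b)
    simp only [norm_mul, Complex.norm_two, norm_one] at t3 t4 h7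
    linarith
  · have q : ∀ j, k + 1 ≤ j → n ∈ Finset.range (16 ^ j) := fun j hj =>
      Finset.mem_range.2 (h2.trans_le (Nat.pow_le_pow_right (by norm_num) hj))
    have h4 := tele (a := fun j => W N j n 0) (ε := 1 / 16) (by norm_num) (k := k + 1)
      (fun j hj => st j n 0 ((hN j).2.1 n (q j hj)).1 ((hN j).2.1 n (q j hj)).2.1) j h3
    have h5 := W_bd N (n := n) (s := 4 ^ k) (by positivity) (by
      rw [← pow_mul, mul_comm, pow_mul]; norm_num; exact_mod_cast h1) (k + 1) 0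
    have h6 := norm_sub_norm_le (W N j n 0) (W N (k + 1) n 0)
    have h7 : (2 : ℝ) ^ (k + 1) * (33 / 4 ^ k) = 66 * (1 / 2 ^ k) := by
      rw [show (4 : ℝ) = 2 * 2 by norm_num, mul_pow, pow_succ]; field_simp; norm_num
    have h8 : 2 * ((1 : ℝ) / 16 / 2 ^ (k + 1)) = 1 / 16 * (1 / 2 ^ k) := by rw [pow_succ]; field_simp
    have h9 : (70 : ℝ) / 2 ^ k = 70 * (1 / 2 ^ k) := by ring
    have : (0 : ℝ) < 1 / 2 ^ k := by positivity
    linarith

end Pool.Agent.H.MP_ae9c87_an
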