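import Pool.Agent.H.MP_ae9c87_an.A

set_option autoImplicit false

namespace Pool.Agent.H.MP_ae9c87_an

open Filter Topology Real MeasureTheory
open scoped ENNReal

abbrev K : Type := Set.Icc (1 : ℝ) 2

theorem meas : ∃ (μ : Measure K) (N : ℕ → ℝ), IsFiniteMeasure μ ∧ (∀ k : ℕ, (k : ℝ) ≤ N k) ∧
    (∀ k, 1 / 8 ≤ ‖∫ x : K, e (N k * x) ∂μ‖) ∧
    Tendsto (fun n : ℕ => ∫ x : K, v x ^ n ∂μ) atTop (𝓝 0) := by
  obtain ⟨N, h1, h2, h3, h4⟩ := riesz
  have : IsFiniteMeasure (volume.comap (Subtype.val : K → ℝ)) := ⟨by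
    rw [(MeasurableEmbedding.subtype_coe measurableSet_Icc).comap_apply, Set.image_univ,
      Subtype.range_coe]; simp⟩
  have hf : ∀ j, IsFiniteMeasure ((volume.comap (Subtype.val : K → ℝ)).withDensity
      fun x => ENNReal.ofReal (P N j x)) := fun j =>
    isFiniteMeasure_withDensity_ofReal
      (BoundedContinuousFunction.integrable _ (BoundedContinuousFunction.mkOfCompact
        ⟨fun x : K => P N j x, by fun_prop⟩)).2
  let ν : ℕ → FiniteMeasure K := fun j => ⟨_, hf j⟩
  have hν : ∀ j n m, ∫ x : K, e (m * x) * v x ^ n ∂(ν j : Measure K) = W N j n m := fun j n m => by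
    have := integral_withDensity_eq_integral_toReal_smul (μ := (volume.comap (Subtype.val : K → ℝ)))
      (f := fun x => ENNReal.ofReal (P N j x)) (by fun_prop) (by simp)
      (fun x : K => e (m * x) * v x ^ n)
    refine this.trans ?_
    rw [W, intervalIntegral.integral_of_le one_le_two, ← integral_Icc_eq_integral_Ioc,
      ← integral_subtype_comap measurableSet_Icc]
    congr 1; funext x
    rw [ENNReal.toReal_ofReal (P_nonneg _ _ _), Complex.real_smul]; ring
  obtain ⟨μ, -, hμ⟩ := (isCompact_setOfPred_finiteMeasure_le_of_compactSpace K 2).ultrafilter_le_nhds'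
    ((hyperfilter ℕ).map ν) (by
      refine Ultrafilter.mem_map.2 (univ_mem' fun j => ?_)
      have := h2 j
      rw [← hν] at this
      simp only [zero_mul, e_zero, pow_zero, mul_one, integral_const, Complex.real_smul,
        Complex.norm_real, Real.norm_eq_abs] at this
      have h := (le_abs_self _).trans this
      show (ν j).mass ≤ 2
      rw [← NNReal.coe_le_coe]
      exact h)
  have key : ∀ (n : ℕ) (m : ℝ), Tendsto (fun j => ‖W N j n m‖) (hyperfilter ℕ)
      (𝓝 ‖∫ x : K, e (m * x) * v x ^ n ∂(μ : Measure K)‖) := fun n m => by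
    have := (FiniteMeasure.tendsto_iff_forall_integral_rclike_tendsto ℂ).1
      (show Tendsto ν (hyperfilter ℕ) (𝓝 μ) from hμ) (BoundedContinuousFunction.mkOfCompact
        ⟨fun x : K => e (m * x) * v x ^ n, by fun_prop⟩)
    simp only [← hν]
    exact this.norm
  have ev : ∀ k, ∀ᶠ j in (hyperfilter ℕ : Filter ℕ), k < j := fun k =>
    (eventually_gt_atTop k).filter_mono (by rw [← Nat.cofinite_eq_atTop]; exact hyperfilter_le_cofinite)
  refine ⟨μ, N, inferInstance, h1, fun k => ?_, ?_⟩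
  · simpa using ge_of_tendsto (key 0 (N k)) ((ev k).mono (h3 k))
  · have hl : Tendsto (Nat.log 16) atTop atTop := tendsto_atTop.2 fun b =>
      (eventually_ge_atTop (16 ^ b)).mono fun n hn => Nat.le_log_of_pow_le (by norm_num) hn
    refine squeeze_zero_norm' (a := fun n => 70 / 2 ^ Nat.log 16 n)
      ((eventually_ne_atTop 0).mono fun n hn => ?_)
      ((tendsto_const_nhds.div_atTop (tendsto_pow_atTop_atTop_of_one_lt one_lt_two)).comp hl)
    simpa [e_zero] using le_of_tendsto (key n 0) ((ev _).mono fun j hj =>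
      h4 n _ j (Nat.pow_log_le_self 16 hn) (Nat.lt_pow_succ_log_self (by norm_num) n) hj)

noncomputable def vv : C(K, ℂ) := ⟨fun x => v x, by fun_prop⟩

theorem vv_star : star vv * vv = 1 := by
  ext x
  simp [vv, Complex.conj_mul', v, e_norm]

theorem sw (μ : Measure K) [IsFiniteMeasure μ]
    (h : Tendsto (fun n : ℕ => ∫ x : K, v x ^ n ∂μ) atTop (𝓝 0)) (g : C(K, ℂ)) :
    Tendsto (fun n : ℕ => ∫ x : K, (vv ^ n * g) x ∂μ) atTop (𝓝 0) := by
  have hi : ∀ g : C(K, ℂ), Integrable g μ := fun g =>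
    BoundedContinuousFunction.integrable μ (BoundedContinuousFunction.mkOfCompact g)
  let L : C(K, ℂ) →ₗ[ℂ] ℂ :=
    { toFun := fun g => ∫ x, g x ∂μ
      map_add' := fun f g => integral_add (hi f) (hi g)
      map_smul' := fun c f => integral_smul c f }
  have hL : ∀ g, ‖L g‖ ≤ μ.real Set.univ * ‖g‖ := fun g =>
    (norm_integral_le_of_norm_le_const (ae_of_all _ g.norm_coe_le_norm)).trans_eq (mul_comm _ _)
  have nv : ∀ n : ℕ, ‖vv ^ n‖ ≤ 1 := fun n =>
    (ContinuousMap.norm_le _ zero_le_one).2 fun x => by simp [vv, v, e_norm]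
  let S : Set C(K, ℂ) := {g | Tendsto (fun n : ℕ => L (vv ^ n * g)) atTop (𝓝 0)}
  have hS : IsClosed S := by
    refine isClosed_of_closure_subset fun g hg => Metric.tendsto_nhds.2 fun ε hε => ?_
    have p : 0 < μ.real Set.univ + 1 := by positivity
    obtain ⟨f, hf, hd⟩ := Metric.mem_closure_iff.1 hg (ε / 2 / (μ.real Set.univ + 1)) (by positivity)
    filter_upwards [Metric.tendsto_nhds.1 hf (ε / 2) (by positivity)] with n hn
    rw [dist_zero_right] at hn ⊢
    rw [dist_eq_norm, lt_div_iff₀ p] at hd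
    have h1 := hL (vv ^ n * (g - f))
    have h2 : ‖vv ^ n * (g - f)‖ ≤ ‖g - f‖ :=
      (norm_mul_le _ _).trans (mul_le_of_le_one_left (norm_nonneg _) (nv n))
    have h3 := mul_le_mul_of_nonneg_left h2 (measureReal_nonneg (μ := μ) (s := Set.univ))
    replace h1 := h1.trans h3
    rw [mul_sub, map_sub] at h1
    linarith [norm_sub_norm_le (L (vv ^ n * g)) (L (vv ^ n * f)), norm_nonneg (g - f)]
  have s1 : ∀ g ∈ S, vv * g ∈ S := fun g hg => by
    have := (tendsto_add_atTop_iff_nat 1).2 hg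
    simpa only [S, pow_succ, mul_assoc, Set.mem_ofPred_eq] using this
  have s2 : ∀ g ∈ S, star vv * g ∈ S := fun g hg => by
    refine (tendsto_add_atTop_iff_nat 1).1 (Tendsto.congr (fun n => ?_) hg)
    rw [pow_succ, mul_assoc, ← mul_assoc vv, mul_comm vv, vv_star, one_mul]
  have sep : (StarAlgebra.adjoin ℂ {vv}).SeparatesPoints := fun x y hxy => by
    refine ⟨vv, ⟨vv, StarAlgebra.self_mem_adjoin_singleton ℂ vv, rfl⟩, fun h => hxy ?_⟩
    obtain ⟨n, hn⟩ := Complex.exp_eq_exp_iff_exists_int.1 h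
    have h1 : (π + 2 * arctan x : ℝ) = π + 2 * arctan y + n * (2 * π) := by
      have := congrArg Complex.im hn
      simpa [-Complex.ofReal_arctan] using this
    have a1 := arctan_lt_pi_div_two x
    have a2 := arctan_lt_pi_div_two y
    have a3 := neg_pi_div_two_lt_arctan x
    have a4 := neg_pi_div_two_lt_arctan y
    have b1 : (n : ℝ) < 1 := by nlinarith [pi_pos]
    have b2 : -1 < (n : ℝ) := by nlinarith [pi_pos]
    have : n = 0 := by
      have : n < 1 := by exact_mod_cast b1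
      have : -1 < n := by exact_mod_cast b2
      omega
    subst this
    exact Subtype.ext (by simpa using h1)
  have hA : ∀ a ∈ StarAlgebra.adjoin ℂ {vv}, ∀ g ∈ S, a * g ∈ S ∧ star a * g ∈ S := fun a ha => by
    induction ha using StarAlgebra.adjoin_induction with
    | mem x hx => obtain rfl := hx; exact fun g hg => ⟨s1 g hg, s2 g hg⟩
    | algebraMap r =>
      intro g hg
      have : ∀ r : ℂ, algebraMap ℂ C(K, ℂ) r * g ∈ S := fun r => by
        simpa [S, ← Algebra.smul_def] using Tendsto.const_mul r hg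
      exact ⟨this r, by rw [← algebraMap_star_comm]; exact this _⟩
    | add x y _ _ hx hy =>
      intro g hg
      constructor
      · simpa [S, add_mul, mul_add] using Tendsto.add (hx g hg).1 (hy g hg).1
      · simpa [S, add_mul, mul_add] using Tendsto.add (hx g hg).2 (hy g hg).2
    | mul x y _ _ hx hy =>
      intro g hg
      exact ⟨by rw [mul_assoc]; exact (hx _ (hy g hg).1).1,
        by rw [star_mul, mul_assoc]; exact (hy _ (hx g hg).2).2⟩
    | star x _ hx => exact fun g hg => ⟨(hx g hg).2, by rw [star_star]; exact (hx g hg).1⟩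
  have h1 : (1 : C(K, ℂ)) ∈ S := by simpa [S, L, vv] using h
  have := ContinuousMap.starSubalgebra_topologicalClosure_eq_top_of_separatesPoints _ sep
  have hg : g ∈ (StarAlgebra.adjoin ℂ {vv}).topologicalClosure := this ▸ StarSubalgebra.mem_top
  exact closure_minimal (fun a ha => by simpa using (hA a ha 1 h1).1) hS hg

theorem mulop (μ : Measure K) [IsFiniteMeasure μ] :
    ∃ M : C(K, ℂ) →L[ℂ] (Lp ℂ 2 μ →L[ℂ] Lp ℂ 2 μ), ∀ a f, M a f =ᵐ[μ] fun x => a x * f x :=
  ⟨((ContinuousLinearMap.mul ℂ ℂ).holderL μ ∞ 2 2) ∘L (ContinuousMap.toLp ∞ μ ℂ), fun a f => by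
    filter_upwards [(ContinuousLinearMap.mul ℂ ℂ).coeFn_holder (r := 2)
      (ContinuousMap.toLp ∞ μ ℂ a) f, ContinuousMap.coeFn_toLp (p := ∞) (𝕜 := ℂ) μ a] with x h1 h2
    rw [← h2]; exact h1⟩

theorem v_eq (x : ℝ) : v x = 1 - 2 * (1 / (1 - Complex.I * x)) := by
  have h1 : e (arctan x) = (1 + Complex.I * x) / (√(1 + x ^ 2) : ℝ) := by
    rw [e, mul_comm, Complex.exp_mul_I, ← Complex.ofReal_cos, ← Complex.ofReal_sin, cos_arctan,
      sin_arctan]
    push_cast; ring
  have h2 : e π = -1 := by rw [e, mul_comm, Complex.exp_pi_mul_I]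
  have h3 : ((√(1 + x ^ 2) : ℝ) : ℂ) ^ 2 = (1 + Complex.I * x) * (1 - Complex.I * x) := by
    rw [← Complex.ofReal_pow, sq_sqrt (by positivity)]
    push_cast
    linear_combination (x : ℂ) ^ 2 * Complex.I_mul_I
  have h4 : 1 - Complex.I * x ≠ 0 := fun h => by simpa using congrArg Complex.re h
  have h5 : 1 + Complex.I * x ≠ 0 := fun h => by simpa using congrArg Complex.re h
  rw [v, e_add, h2, show (2 : ℝ) = (2 : ℕ) by simp, e_nat, h1, div_pow, h3]
  field_simp
  ring

noncomputable def ee (t : ℝ) : C(K, ℂ) := ⟨fun x => e (t * x), by fun_prop⟩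

theorem ee_cont : Continuous ee := ContinuousMap.continuous_of_continuous_uncurry _ (by
  show Continuous fun p : ℝ × K => e (p.1 * p.2); fun_prop)

theorem ee_norm (t : ℝ) : ‖ee t‖ ≤ 1 :=
  (ContinuousMap.norm_le _ zero_le_one).2 fun x => by simp [ee, e_norm]

theorem ee_int : IntegrableOn (fun t : ℝ => ((Real.exp (-t) : ℝ) : ℂ) • ee t) (Set.Ioi 0) := by
  refine (integrableOn_exp_neg_Ioi 0).mono' (Continuous.aestronglyMeasurable
    (by have := ee_cont; fun_prop)) (ae_of_all _ fun t => ?_)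
  rw [norm_smul, Complex.norm_real, Real.norm_of_nonneg (exp_pos _).le]
  exact mul_le_of_le_one_right (exp_pos _).le (ee_norm t)

theorem vv_eq : vv = 1 - (2 : ℂ) • ∫ t in Set.Ioi (0 : ℝ), ((Real.exp (-t) : ℝ) : ℂ) • ee t := by
  ext x
  have h := (ContinuousMap.evalCLM ℂ x).integral_comp_comm ee_int
  have h2 := integral_exp_mul_complex_Ioi (a := -1 + Complex.I * x) (by simp) 0
  have h3 : ∀ t : ℝ, (ContinuousMap.evalCLM ℂ x) (((Real.exp (-t) : ℝ) : ℂ) • ee t) =
      Complex.exp ((-1 + Complex.I * x) * t) := fun t => by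
    simp only [ContinuousMap.evalCLM_apply, ee, e, ContinuousMap.smul_apply, smul_eq_mul,
      ContinuousMap.coe_mk, Complex.ofReal_exp, ← Complex.exp_add]
    congr 1; push_cast; ring
  simp only [h3, h2] at h
  rw [ContinuousMap.evalCLM_apply] at h
  simp only [vv, v_eq, ContinuousMap.coe_mk, ContinuousMap.sub_apply, ContinuousMap.smul_apply, ← h]
  rw [show -1 + Complex.I * x = -(1 - Complex.I * x) by ring, neg_div_neg_eq]
  simp

theorem main : ∃ (μ : Measure K) (T : ℝ → Lp ℂ 2 μ →L[ℂ] Lp ℂ 2 μ), T 0 = 1 ∧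
    (∀ s t, T (s + t) = T s * T t) ∧ Continuous T ∧ (∀ t, ‖T t‖ ≤ 1) ∧
    (¬ ∀ x y, Tendsto (fun t : ℝ => inner ℂ (T t x) y) atTop (𝓝 0)) ∧
    ∀ x y, Tendsto (fun n : ℕ => inner ℂ ((fun z => z - (2 : ℂ) •
      ∫ t in Set.Ioi (0 : ℝ), ((Real.exp (-t) : ℝ) : ℂ) • T t z)^[n] x) y) atTop (𝓝 0) := by
  obtain ⟨μ, N, hμ, h1, h2, h3⟩ := meas
  obtain ⟨M, hM⟩ := mulop μ
  have M1 : M 1 = 1 := by
    ext f
    filter_upwards [hM 1 f] with x h using by simpa using h
  have Mm : ∀ a b, M (a * b) = M a * M b := fun a b => by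
    ext f
    filter_upwards [hM (a * b) f, hM a (M b f), hM b f] with x h1 h2 h3
    rw [h1, ContinuousLinearMap.mul_apply, h2, h3, ContinuousMap.mul_apply, mul_assoc]
  have Mn : ∀ a : C(K, ℂ), ‖a‖ ≤ 1 → ‖M a‖ ≤ 1 := fun a ha =>
    ContinuousLinearMap.opNorm_le_bound _ zero_le_one fun f =>
      Lp.norm_le_mul_norm_of_ae_le_mul ((hM a f).mono fun x h => by
        rw [h, norm_mul]
        exact mul_le_mul_of_nonneg_right ((a.norm_coe_le_norm x).trans ha) (norm_nonneg _))
  have Mi : ∀ a f g : C(K, ℂ), inner ℂ (ContinuousMap.toLp 2 μ ℂ g) (M a (ContinuousMap.toLp 2 μ ℂ f))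
      = ∫ x, (a * (f * star g)) x ∂μ := fun a f g => by
    rw [L2.inner_def]
    refine integral_congr_ae ?_
    filter_upwards [hM a (ContinuousMap.toLp 2 μ ℂ f), ContinuousMap.coeFn_toLp (p := 2) (𝕜 := ℂ) μ f,
      ContinuousMap.coeFn_toLp (p := 2) (𝕜 := ℂ) μ g] with x h1 h2 h3
    rw [h1, h2, h3]; simp [mul_assoc]
  refine ⟨μ, fun t => M (ee t), ?_, fun s t => ?_, M.continuous.comp ee_cont,
    fun t => Mn _ (ee_norm t), fun h => ?_, fun x y => ?_⟩
  · rw [← M1]; refine congrArg M ?_; ext x; simp [ee, e_zero]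
  · rw [← Mm]; refine congrArg M ?_; ext x; simp [ee, add_mul, e_add]
  · have := ((h (ContinuousMap.toLp 2 μ ℂ 1) (ContinuousMap.toLp 2 μ ℂ 1)).comp
      (tendsto_atTop_mono h1 tendsto_natCast_atTop_atTop)).norm
    have := ge_of_tendsto' this (b := 1 / 8) fun k => by
      rw [Function.comp_apply, norm_inner_symm, Mi]
      simpa [ee] using h2 k
    norm_num at this
  · have hV : (fun z => z - (2 : ℂ) • ∫ t in Set.Ioi (0 : ℝ), ((Real.exp (-t) : ℝ) : ℂ) • M (ee t) z)
        = M vv := by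
      funext z
      have := (M.flip z).integral_comp_comm ee_int
      simp only [ContinuousLinearMap.flip_apply, map_smul] at this
      rw [vv_eq, map_sub, map_smul, M1, this]; rfl
    have hI : ∀ (n : ℕ) z, (M vv)^[n] z = M (vv ^ n) z := fun n => by
      induction n with
      | zero => simp [M1]
      | succ n ih => intro z; rw [Function.iterate_succ_apply, ih, pow_succ, Mm]; rfl
    simp only [hV, hI]
    have nv : ∀ n : ℕ, ‖M (vv ^ n)‖ ≤ 1 := fun n => Mn _
      ((ContinuousMap.norm_le _ zero_le_one).2 fun x => by simp [vv, v, e_norm])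
    have dn := ContinuousMap.toLp_denseRange ℂ μ ℂ (p := 2) (by simp)
    have cl : ∀ (L : ℕ → Lp ℂ 2 μ → ℂ) (c : ℝ), (∀ n a b, ‖L n a - L n b‖ ≤ c * ‖a - b‖) →
        (∀ f, Tendsto (fun n => L n (ContinuousMap.toLp 2 μ ℂ f)) atTop (𝓝 0)) →
        ∀ a, Tendsto (fun n => L n a) atTop (𝓝 0) := fun L c hL hf a =>
      Metric.tendsto_nhds.2 fun ε hε => by
        have p : 0 < |c| + 1 := by positivity
        obtain ⟨f, hd⟩ := dn.exists_dist_lt a (show 0 < ε / 2 / (|c| + 1) by positivity)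
        filter_upwards [Metric.tendsto_nhds.1 (hf f) (ε / 2) (by positivity)] with n hn
        rw [dist_zero_right] at hn ⊢
        rw [dist_eq_norm, lt_div_iff₀ p] at hd
        have := hL n a (ContinuousMap.toLp 2 μ ℂ f)
        generalize ContinuousMap.toLp 2 μ ℂ f = b at *
        nlinarith [norm_sub_norm_le (L n a) (L n b), norm_nonneg (a - b), le_abs_self c]
    have nn : ∀ (n : ℕ) a b, ‖inner ℂ (M (vv ^ n) a) b‖ ≤ ‖a‖ * ‖b‖ := fun n a b =>
      (norm_inner_le_norm _ _).trans (mul_le_mul_of_nonneg_right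
        (((M _).le_of_opNorm_le (nv n) a).trans_eq (one_mul _)) (norm_nonneg _))
    refine cl (fun n a => inner ℂ (M (vv ^ n) a) y) ‖y‖ (fun n a b => ?_) (fun f => ?_) x
    · rw [← inner_sub_left, ← map_sub, mul_comm]; exact nn _ _ _
    refine cl (fun n b => inner ℂ (M (vv ^ n) (ContinuousMap.toLp 2 μ ℂ f)) b) _
      (fun n a b => by rw [← inner_sub_right]; exact nn _ _ _) (fun g => ?_) y
    rw [tendsto_zero_iff_norm_tendsto_zero]
    simp only [fun n : ℕ => norm_inner_symm (𝕜 := ℂ) (M (vv ^ n) (ContinuousMap.toLp 2 μ ℂ f)), Mi]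
    exact tendsto_zero_iff_norm_tendsto_zero.1 (sw μ h3 _)

end Pool.Agent.H.MP_ae9c87_an
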